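import Mathlib
import Pool.Agent.H8.Ham

set_option autoImplicit false

/-!
# A closure property of the set of orders attaining Hamidoune's bound

`Attains t n` says that the cyclic group of order `n` contains a weak zero-`[1,t]`-sum-free subset
of size `⌊(n - 2) / t⌋ + t - 1`.
-/

namespace Pool.Agent.Results.MP_302456_co.Closure

open Pool.Agent.H8.Ham

/-- For every `t ≥ 1`, if the cyclic group of order `h` attains the bound then so does the cyclic
group of order `h * m` for every positive integer `m` congruent to `1` modulo `t`. -/
theorem result (t h m : ℕ) (ht : 0 < t) (hh : 0 < h) (hm : 0 < m) (hmt : m ≡ 1 [MOD t])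
    (hA : Attains t h) : Attains t (h * m) := by
  obtain ⟨K, rfl⟩ : ∃ K, m = t * K + 1 := by
    have h1 : t ∣ m - 1 := (Nat.modEq_iff_dvd' hm).1 hmt.symm
    obtain ⟨K, hK⟩ := h1
    exact ⟨K, by omega⟩
  exact attains_mul ht hh hA

end Pool.Agent.Results.MP_302456_co.Closure
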