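import Mathlib
import Pool.Agent.H8.Ham

set_option autoImplicit false

/-!
# New infinite families of cyclic groups attaining Hamidoune's bound

`Attains t n` says that the cyclic group of order `n` contains a weak zero-`[1,t]`-sum-free subset
of size `⌊(n - 2) / t⌋ + t - 1`.
-/

namespace Pool.Agent.Results.MP_302456_co.InfiniteFamilies

open Finset Pool.Agent.H8.Ham

lemma sum_le_aux (D : Finset ℕ) : ∀ k : ℕ, (∀ d ∈ D, d ≤ k) →
    2 * (∑ d ∈ D, (d : ℤ)) + D.card * (D.card - 1) ≤ 2 * k * D.card := by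
  induction D using Finset.induction_on_max with
  | empty => intro k _; simp
  | insert a D hmax ih =>
    intro k hk
    have hnotin : a ∉ D := fun h => lt_irrefl _ (hmax a h)
    rw [sum_insert hnotin, card_insert_of_notMem hnotin]
    have hak : a ≤ k := hk a (mem_insert_self _ _)
    rcases Nat.eq_zero_or_pos a with ha | ha
    · have hD : D = ∅ := by
        rw [eq_empty_iff_forall_notMem]
        intro d hd
        have := hmax d hd
        omega
      subst hD
      subst ha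
      simp
    · have h1 := ih (a - 1) (fun d hd => by have := hmax d hd; omega)
      rw [Nat.cast_sub ha] at h1
      push_cast at h1 ⊢
      have h2 : (a : ℤ) ≤ k := by exact_mod_cast hak
      have h3 : (0 : ℤ) ≤ D.card := by positivity
      nlinarith

/-- The family `t = 4`, `n ≡ 4 (mod 8)`. -/
lemma family_four (j : ℕ) : Attains 4 (8 * j + 12) := by
  have key : ∀ B ⊆ blockSet (j + 2) 2 ∅ {1}, B.card ≤ 4 →
      ((∑ p ∈ B, (p.1 : ℤ)) ≤ 4 * j + 6) ∧
      ((∑ p ∈ B, (p.1 : ℤ)) = 4 * j + 6 → ∑ p ∈ B, p.2 = 2) := by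
    intro B hB hBt
    have hmem : ∀ p ∈ B, p.1 ≤ j + 2 ∧ p.2 < 2 := by
      intro p hp
      rcases mem_blockSet.1 (hB hp) with h2 | h2 | h2
      · exact ⟨h2.1.2, h2.2⟩
      · simp at h2
      · have := mem_singleton.1 h2.2; omega
    have hc : ∀ i : ℕ, Set.InjOn Prod.fst ((B.filter (fun p => p.2 = i) : Finset (ℕ × ℕ)) :
        Set (ℕ × ℕ)) := by
      intro i p hp q hq hpq
      have hp' := (mem_filter.1 (mem_coe.1 hp)).2
      have hq' := (mem_filter.1 (mem_coe.1 hq)).2
      exact Prod.ext hpq (hp'.trans hq'.symm)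
    have hb : ∀ i : ℕ, 2 * (∑ p ∈ B.filter (fun p => p.2 = i), (p.1 : ℤ)) +
        (B.filter (fun p => p.2 = i)).card * ((B.filter (fun p => p.2 = i)).card - 1) ≤
        2 * ((j + 2 : ℕ) : ℤ) * (B.filter (fun p => p.2 = i)).card := by
      intro i
      have h1 := sum_le_aux ((B.filter (fun p => p.2 = i)).image Prod.fst) (j + 2) (by
        intro d hd
        obtain ⟨p, hp, rfl⟩ := mem_image.1 hd
        exact (hmem p (mem_filter.1 hp).1).1)
      rw [sum_image (hc i), card_image_of_injOn (hc i)] at h1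
      exact h1
    have hsplit : ∀ f : ℕ × ℕ → ℤ, ∑ p ∈ B, f p = ∑ p ∈ B.filter (fun p => p.2 = 0), f p +
        ∑ p ∈ B.filter (fun p => p.2 = 1), f p := by
      intro f
      rw [← sum_filter_add_sum_filter_not B (fun p => p.2 = 0)]
      congr 1
      apply sum_congr _ (fun _ _ => rfl)
      ext p
      simp only [mem_filter]
      constructor
      · rintro ⟨h1, h2⟩; exact ⟨h1, by have := (hmem p h1).2; omega⟩
      · rintro ⟨h1, h2⟩; exact ⟨h1, by omega⟩
    have hcard : (B.card : ℤ) = (B.filter (fun p => p.2 = 0)).card +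
        (B.filter (fun p => p.2 = 1)).card := by
      have := hsplit (fun _ => 1)
      simpa using this
    have hsnd : (∑ p ∈ B, (p.2 : ℤ)) = (B.filter (fun p => p.2 = 1)).card := by
      rw [hsplit]
      have e0 : ∑ p ∈ B.filter (fun p => p.2 = 0), (p.2 : ℤ) = 0 := by
        apply sum_eq_zero
        intro p hp
        rw [(mem_filter.1 hp).2]; rfl
      have e1 : ∑ p ∈ B.filter (fun p => p.2 = 1), (p.2 : ℤ) =
          ∑ p ∈ B.filter (fun p => p.2 = 1), 1 := by
        apply sum_congr rfl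
        intro p hp
        rw [(mem_filter.1 hp).2]; rfl
      rw [e0, e1]
      simp
    have h0 := hb 0
    have h1 := hb 1
    have hs := hsplit (fun p => (p.1 : ℤ))
    rw [hs]
    have hB4 : (B.card : ℤ) ≤ 4 := by exact_mod_cast hBt
    rw [hcard] at hB4
    generalize (B.filter (fun p => p.2 = 0)).card = b₀ at *
    generalize (B.filter (fun p => p.2 = 1)).card = b₁ at *
    have hb0 : b₀ ≤ 4 := by omega
    have hb1 : b₁ ≤ 4 := by omega
    have hsnd' : (∑ p ∈ B, p.2) = b₁ := by exact_mod_cast hsnd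
    rw [hsnd']
    push_cast at h0 h1
    interval_cases b₀ <;> interval_cases b₁ <;> omega
  refine attains_of_block (N := 4 * j + 6) (h := 2) (by ring) (by omega) (by norm_num)
    (blockSet (j + 2) 2 ∅ {1}) ?_ ?_ ?_ ?_ ?_
  · intro p hp
    rcases mem_blockSet.1 hp with h2 | h2 | h2
    · exact ⟨by omega, h2.2⟩
    · simp at h2
    · have := mem_singleton.1 h2.2
      exact ⟨by omega, by omega⟩
  · rw [blockSet_card]
    simp only [card_empty, card_singleton]
    push_cast
    have e : ((8 : ℤ) * j + 12 - 2) = 2 + (2 * j + 2) * 4 := by ring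
    rw [e, Int.add_mul_ediv_right _ _ (by norm_num)]
    norm_num
    ring
  · intro B hB hne hBt
    have := (key B hB hBt).1
    exact_mod_cast this
  · intro B hB hne hBt hsum
    refine sum_zero_case (X := ∅) (Z := {1}) (t := 4) ?_ hB hne hBt hsum
    intro D hD hDne _
    have : D = {1} := by
      rcases subset_singleton_iff.1 hD with h | h
      · rw [h] at hDne; simp at hDne
      · exact h
    rw [this]
    simp
  · intro B hB hne hBt hsum
    have h1 := (key B hB hBt).2 (by exact_mod_cast hsum)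
    rw [h1]
    norm_num

/-- Small cases by inspection of all subsets. -/
lemma small {t n : ℕ} (hn : 0 < n) (U : Finset ℕ) (hU : ∀ u ∈ U, u < n)
    (hcard : (U.card : ℤ) = ((n : ℤ) - 2) / (t : ℤ) + t - 1)
    (hfree : ∀ B ∈ U.powerset, B.Nonempty → B.card ≤ t → ¬ n ∣ ∑ u ∈ B, u) : Attains t n :=
  attains_of_nat hn U hU hcard (fun B hB => hfree B (mem_powerset.2 hB))

lemma a3_11 : Attains 3 11 :=
  small (by norm_num) {1, 3, 4, 5, 9} (by decide) (by decide) (by decide +kernel)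

lemma a4_9 : Attains 4 9 :=
  small (by norm_num) {1, 3, 4, 7} (by decide) (by decide) (by decide +kernel)

lemma a4_11 : Attains 4 11 :=
  small (by norm_num) {1, 3, 4, 5, 9} (by decide) (by decide) (by decide +kernel)

lemma a4_13 : Attains 4 13 :=
  small (by norm_num) {1, 2, 6, 8, 9} (by decide) (by decide) (by decide +kernel)

lemma a4_17 : Attains 4 17 :=
  small (by norm_num) {1, 2, 5, 6, 7, 13} (by decide) (by decide) (by decide +kernel)

lemma a5_16 : Attains 5 16 :=
  small (by norm_num) {1, 3, 9, 10, 11, 14} (by decide) (by decide) (by decide +kernel)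

lemma family_nine (K : ℕ) : Attains 3 (3 * (K + 1) * 3) :=
  attains_block2 (by norm_num) (by norm_num) {0, 1, 2} {1} (by decide) (by decide)
    (fun D hD => (by decide +kernel : ∀ D ∈ ({1} : Finset ℕ).powerset, D.Nonempty →
      D.card ≤ 3 → ¬ 3 ∣ ∑ y ∈ D, y) D (mem_powerset.2 hD))
    (fun D hD => (by decide +kernel : ∀ D ∈ ({0, 1, 2} : Finset ℕ).powerset, D.card = 3 →
      ¬ 3 ∣ 1 + ∑ y ∈ D, y) D (mem_powerset.2 hD)) (by decide)

lemma family_fifteen (K : ℕ) : Attains 3 (3 * (K + 1) * 5) :=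
  attains_block2 (by norm_num) (by norm_num) {0, 1, 2, 4} {1, 2} (by decide) (by decide)
    (fun D hD => (by decide +kernel : ∀ D ∈ ({1, 2} : Finset ℕ).powerset, D.Nonempty →
      D.card ≤ 3 → ¬ 5 ∣ ∑ y ∈ D, y) D (mem_powerset.2 hD))
    (fun D hD => (by decide +kernel : ∀ D ∈ ({0, 1, 2, 4} : Finset ℕ).powerset, D.card = 3 →
      ¬ 5 ∣ 1 + ∑ y ∈ D, y) D (mem_powerset.2 hD)) (by decide)

lemma family_sixteen (K : ℕ) : Attains 4 (4 * (K + 1) * 4) :=
  attains_block2 (by norm_num) (by norm_num) {0, 1, 2, 3} {1, 2} (by decide) (by decide)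
    (fun D hD => (by decide +kernel : ∀ D ∈ ({1, 2} : Finset ℕ).powerset, D.Nonempty →
      D.card ≤ 4 → ¬ 4 ∣ ∑ y ∈ D, y) D (mem_powerset.2 hD))
    (fun D hD => (by decide +kernel : ∀ D ∈ ({0, 1, 2, 3} : Finset ℕ).powerset, D.card = 4 →
      ¬ 4 ∣ 1 + ∑ y ∈ D, y) D (mem_powerset.2 hD)) (by decide)

lemma family_twentyfour (K : ℕ) : Attains 4 (4 * (K + 1) * 6) :=
  attains_block2 (by norm_num) (by norm_num) {0, 1, 3, 4, 5} {1, 3, 4} (by decide) (by decide)
    (fun D hD => (by decide +kernel : ∀ D ∈ ({1, 3, 4} : Finset ℕ).powerset, D.Nonempty →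
      D.card ≤ 4 → ¬ 6 ∣ ∑ y ∈ D, y) D (mem_powerset.2 hD))
    (fun D hD => (by decide +kernel : ∀ D ∈ ({0, 1, 3, 4, 5} : Finset ℕ).powerset, D.card = 4 →
      ¬ 6 ∣ 1 + ∑ y ∈ D, y) D (mem_powerset.2 hD)) (by decide)

/-- The cyclic group of order `n` contains a weak zero-`[1,t]`-sum-free subset of size
`⌊(n - 2) / t⌋ + t - 1` for every pair `(t, n)` of the following list. -/
theorem result (t n : ℕ)
    (h : (t = 3 ∧ 0 < n ∧ (9 ∣ n ∨ 15 ∣ n)) ∨
      (t = 3 ∧ ∃ k, n = 11 * (3 * k + 1)) ∨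
      (t = 4 ∧ 12 ≤ n ∧ n % 8 = 4) ∨
      (t = 4 ∧ 0 < n ∧ (16 ∣ n ∨ 24 ∣ n)) ∨
      (t = 4 ∧ ∃ k, n = 9 * (4 * k + 1) ∨ n = 11 * (4 * k + 1) ∨ n = 13 * (4 * k + 1) ∨
        n = 17 * (4 * k + 1)) ∨
      (t = 5 ∧ ∃ k, n = 16 * (5 * k + 1))) : Attains t n := by
  rcases h with ⟨rfl, hn, h | h⟩ | ⟨rfl, k, rfl⟩ | ⟨rfl, h1, h2⟩ | ⟨rfl, hn, h | h⟩ |
    ⟨rfl, k, rfl | rfl | rfl | rfl⟩ | ⟨rfl, k, rfl⟩
  · obtain ⟨m, rfl⟩ := h
    obtain ⟨K, rfl⟩ : ∃ K, m = K + 1 := ⟨m - 1, by omega⟩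
    have := family_nine K
    rwa [show 3 * (K + 1) * 3 = 9 * (K + 1) by ring] at this
  · obtain ⟨m, rfl⟩ := h
    obtain ⟨K, rfl⟩ : ∃ K, m = K + 1 := ⟨m - 1, by omega⟩
    have := family_fifteen K
    rwa [show 3 * (K + 1) * 5 = 15 * (K + 1) by ring] at this
  · exact attains_mul (by norm_num) (by norm_num) a3_11
  · obtain ⟨j, rfl⟩ : ∃ j, n = 8 * j + 12 := ⟨(n - 12) / 8, by omega⟩
    exact family_four j
  · obtain ⟨m, rfl⟩ := h
    obtain ⟨K, rfl⟩ : ∃ K, m = K + 1 := ⟨m - 1, by omega⟩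
    have := family_sixteen K
    rwa [show 4 * (K + 1) * 4 = 16 * (K + 1) by ring] at this
  · obtain ⟨m, rfl⟩ := h
    obtain ⟨K, rfl⟩ : ∃ K, m = K + 1 := ⟨m - 1, by omega⟩
    have := family_twentyfour K
    rwa [show 4 * (K + 1) * 6 = 24 * (K + 1) by ring] at this
  · exact attains_mul (by norm_num) (by norm_num) a4_9
  · exact attains_mul (by norm_num) (by norm_num) a4_11
  · exact attains_mul (by norm_num) (by norm_num) a4_13
  · exact attains_mul (by norm_num) (by norm_num) a4_17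
  · exact attains_mul (by norm_num) (by norm_num) a5_16

end Pool.Agent.Results.MP_302456_co.InfiniteFamilies
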