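import Mathlib
import Pool.Agent.H8.Ham
import Pool.Agent.H19.HP.Final

set_option autoImplicit false

/-!
# A sharper upper bound than Hamidoune's for cyclic groups of prime order

For a prime `p` and `t ≥ 3`, a weak zero-`[1,t]`-sum-free subset of `Z_p` with at least `t + 2`
elements has at most `(p + 3) / t + (t - 1) / 2` elements.
-/

namespace Pool.Agent.Results.MP_302456_co.PrimeBound

open Pool.Agent.H8.Ham

/-- `t * |A| ≤ p + 3 + t * (t - 1) / 2` for every weak zero-`[1,t]`-sum-free subset `A` of `Z_p`
with at least `t + 2` elements. -/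
theorem result (p t : ℕ) (hp : p.Prime) (ht : 3 ≤ t) (A : Finset (ZMod p))
    (hA : WeakZeroSumFree p t A) (hd : t + 2 ≤ A.card) :
    2 * (t * A.card) ≤ 2 * (p + 3) + t * (t - 1) := by
  haveI : Fact p.Prime := ⟨hp⟩
  exact Pool.Agent.H19.HP.prime_bound ht hA hd

end Pool.Agent.Results.MP_302456_co.PrimeBound
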