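import Mathlib
import Pool.Agent.H8.Ham
import Pool.Agent.H19.HP.Final

set_option autoImplicit false

/-!
# The complete answer for cyclic groups of prime order

`Attains t n` says that the cyclic group of order `n` contains a weak zero-`[1,t]`-sum-free subset
of size `⌊(n - 2) / t⌋ + t - 1`.
-/

namespace Pool.Agent.Results.MP_302456_co.PrimeOrder

open Pool.Agent.H8.Ham

/-- For a prime `p` and `t ≥ 1`, the group `Z_p` contains a weak zero-`[1,t]`-sum-free subset of
size `⌊(p - 2) / t⌋ + t - 1` exactly in the cases listed. -/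
theorem result (t p : ℕ) (ht : 1 ≤ t) (hp : p.Prime) :
    Attains t p ↔ t = 1 ∨ t = 2 ∨ (t = 3 ∧ (p % 3 = 1 ∨ p = 11)) ∨
      (t = 4 ∧ (p = 11 ∨ p = 13 ∨ p = 17)) :=
  Pool.Agent.H19.HP.prime_classification p t hp ht

end Pool.Agent.Results.MP_302456_co.PrimeOrder
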